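import Pool.Agent.Lib.MP_4d8715_gt.KR.A.Haus

/-! # Hausdorff dimension zero through covers by intervals and squares (modules D-1, D-2)

(→) `exists_cover` of A/Haus or directly: `dimH Y = 0` gives Hausdorff measure zero in dimension `1 / (2 j)` (or `1 / j`), so for every `δ > 0` a countable
cover by sets `t n` with `∑ (diam (t n))^(1/j) < δ`; take rational `e n > 0` with `e n > 3 * (diam)^(1/j)` and `∑ e n < ε` and an interval `(a n, a n + (e n)^j]` around
`t n`. (←) for every `j` the sets `(a n, a n + (e n)^j]` have diameter at most `(e n)^j`, so the Hausdorff measure in dimension `1 / j` is zero (they have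
small diameter when `ε` is small) and `dimH ≤ 1 / j`. In the plane: squares, with `√2 ≤ 2`. -/

namespace Pool.Agent.Lib.MP_4d8715_gt.KR

open Set Filter MeasureTheory MeasureTheory.Measure

open scoped ENNReal

/-- one cover with a small sum, in any metric space -/
private theorem adequacy_cover_step {E : Type*} [MetricSpace E] [MeasurableSpace E] [BorelSpace E]
    [Nonempty E] (Y : Set E) (hY : dimH Y = 0) (s : ℝ) (hs : 0 < s) (δ : ℝ≥0∞) (hδ : 0 < δ) :
    ∃ (c : ℕ → E) (r : ℕ → ℝ), (∀ n, 0 < r n) ∧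
      ∑' n, ENNReal.ofReal (r n ^ s) ≤ δ ∧ ∀ y ∈ Y, ∃ n, dist y (c n) ≤ r n := by
  classical
  have hδ2 : (0 : ℝ≥0∞) < δ / 2 := by
    rw [ENNReal.div_pos_iff]
    exact ⟨hδ.ne', by norm_num⟩
  have hmeas : μH[s] Y = 0 := by
    have h := hausdorffMeasure_of_dimH_lt (s := Y) (d := ⟨s, hs.le⟩) (by
      rw [hY]
      exact ENNReal.coe_pos.2 (show (0 : NNReal) < ⟨s, hs.le⟩ from hs))
    exact h
  rw [hausdorffMeasure_apply] at hmeas
  have h1 : (⨅ (t : ℕ → Set E) (_ : Y ⊆ ⋃ n, t n) (_ : ∀ n, Metric.ediam (t n) ≤ ENNReal.ofReal (1 / 2)),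
      ∑' n, ⨆ _ : (t n).Nonempty, Metric.ediam (t n) ^ s) < δ / 2 := by
    refine lt_of_le_of_lt ?_ hδ2
    rw [← hmeas]
    exact le_iSup₂_of_le (ENNReal.ofReal (1 / 2)) (by simp) le_rfl
  simp only [iInf_lt_iff] at h1
  obtain ⟨t, htY, htd, hts⟩ := h1
  obtain ⟨e, he, hes⟩ := ENNReal.exists_pos_sum_of_countable' hδ2.ne' ℕ
  -- the tiny radii
  have hefin : ∀ n, e n ≠ ∞ := fun n => ne_top_of_lt ((ENNReal.le_tsum n).trans_lt
    (lt_of_lt_of_le hes le_top))
  set ε : ℕ → ℝ := fun n => (e n).toReal ^ (1 / s) with hε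
  have hεpos : ∀ n, 0 < ε n := by
    intro n
    have h2 : 0 < (e n).toReal := ENNReal.toReal_pos (he n).ne' (hefin n)
    exact Real.rpow_pos_of_pos h2 _
  have hεs : ∀ n, ENNReal.ofReal (ε n ^ s) ≤ e n := by
    intro n
    have h2 : ε n ^ s = (e n).toReal := by
      simp only [hε]
      rw [← Real.rpow_mul ENNReal.toReal_nonneg, one_div, inv_mul_cancel₀ hs.ne',
        Real.rpow_one]
    rw [h2, ENNReal.ofReal_toReal (hefin n)]
  have hdfin : ∀ n, Metric.ediam (t n) ≠ ∞ := fun n =>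
    ne_top_of_le_ne_top ENNReal.ofReal_ne_top (htd n)
  set r : ℕ → ℝ := fun n => max (Metric.ediam (t n)).toReal (ε n) with hr
  have hrpos : ∀ n, 0 < r n := fun n => lt_max_of_lt_right (hεpos n)
  have hrs : ∀ n, ENNReal.ofReal (r n ^ s) ≤
      (⨆ _ : (t n).Nonempty, Metric.ediam (t n) ^ s) + e n := by
    intro n
    rcases le_total (Metric.ediam (t n)).toReal (ε n) with h2 | h2
    · simp only [hr, max_eq_right h2]
      exact (hεs n).trans le_add_self
    · have h3 : 0 < (Metric.ediam (t n)).toReal := (hεpos n).trans_le h2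
      have hne : (t n).Nonempty := by
        rw [nonempty_iff_ne_empty]
        intro h4
        rw [h4] at h3
        simp at h3
      simp only [hr, max_eq_left h2]
      refine le_trans ?_ le_self_add
      rw [iSup_pos hne, ← ENNReal.ofReal_rpow_of_nonneg ENNReal.toReal_nonneg hs.le,
        ENNReal.ofReal_toReal (hdfin n)]
  refine ⟨fun n => if h : (t n).Nonempty then h.some else Classical.arbitrary E, r, hrpos, ?_, ?_⟩
  · calc ∑' n, ENNReal.ofReal (r n ^ s) ≤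
          ∑' n, ((⨆ _ : (t n).Nonempty, Metric.ediam (t n) ^ s) + e n) := ENNReal.tsum_le_tsum hrs
      _ = (∑' n, ⨆ _ : (t n).Nonempty, Metric.ediam (t n) ^ s) + ∑' n, e n := ENNReal.tsum_add
      _ ≤ δ / 2 + δ / 2 := add_le_add hts.le hes.le
      _ = δ := ENNReal.add_halves δ
  · intro y hy
    obtain ⟨n, hn⟩ := mem_iUnion.1 (htY hy)
    refine ⟨n, ?_⟩
    have hne : (t n).Nonempty := ⟨y, hn⟩
    simp only [dif_pos hne]
    have h2 : edist y hne.some ≤ Metric.ediam (t n) := Metric.edist_le_ediam_of_mem hn hne.some_mem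
    have h3 : dist y hne.some ≤ (Metric.ediam (t n)).toReal := by
      rw [edist_dist] at h2
      exact (ENNReal.ofReal_le_iff_le_toReal (hdfin n)).1 h2
    exact h3.trans (le_max_left _ _)

/-- covers from Hausdorff dimension zero, in any metric space -/
private theorem adequacy_forward {E : Type*} [MetricSpace E] [MeasurableSpace E] [BorelSpace E]
    [Nonempty E] (Y : Set E) (hY : dimH Y = 0) (j : ℕ) (hj : 0 < j) (ε : ℚ) (hε : 0 < ε) :
    ∃ (c : ℕ → E) (r : ℕ → ℝ) (e : ℕ → ℚ), (∀ n, 0 < r n) ∧ (∀ n, 0 < e n) ∧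
      (∀ N, ∑ n ∈ Finset.range N, e n < ε) ∧ (∀ n, 3 * r n < (e n : ℝ) ^ j) ∧
      ∀ y ∈ Y, ∃ n, dist y (c n) ≤ r n := by
  have hεR : (0 : ℝ) < ε := by exact_mod_cast hε
  have hj' : (0 : ℝ) < (j : ℝ)⁻¹ := by
    have : (0 : ℝ) < j := by exact_mod_cast hj
    positivity
  have hj1 : (j : ℝ)⁻¹ ≤ 1 := by
    have : (1 : ℝ) ≤ j := by exact_mod_cast hj
    exact inv_le_one_of_one_le₀ this
  obtain ⟨c, r, hr, hsum, hc⟩ := adequacy_cover_step Y hY (j : ℝ)⁻¹ hj' (ENNReal.ofReal (ε / 8))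
    (ENNReal.ofReal_pos.mpr (by positivity))
  have h1 : ∀ n, ∃ e : ℚ, (3 * r n) ^ ((j : ℝ)⁻¹) < e ∧ (e : ℝ) < 4 * r n ^ ((j : ℝ)⁻¹) := by
    intro n
    have h2 : (0 : ℝ) < r n ^ ((j : ℝ)⁻¹) := Real.rpow_pos_of_pos (hr n) _
    have h3 : (3 : ℝ) ^ ((j : ℝ)⁻¹) ≤ 3 := by
      calc (3 : ℝ) ^ ((j : ℝ)⁻¹) ≤ (3 : ℝ) ^ (1 : ℝ) :=
            Real.rpow_le_rpow_of_exponent_le (by norm_num) hj1
        _ = 3 := Real.rpow_one 3
    have h4 : (3 * r n) ^ ((j : ℝ)⁻¹) < 4 * r n ^ ((j : ℝ)⁻¹) := by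
      rw [Real.mul_rpow (by norm_num) (hr n).le]
      nlinarith
    exact exists_rat_btwn h4
  choose e he1 he2 using h1
  have he0 : ∀ n, (0 : ℝ) < e n := by
    intro n
    have h2 : (0 : ℝ) < (3 * r n) ^ ((j : ℝ)⁻¹) :=
      Real.rpow_pos_of_pos (mul_pos (by norm_num) (hr n)) _
    exact h2.trans (he1 n)
  refine ⟨c, r, e, hr, fun n => by exact_mod_cast he0 n, ?_, ?_, hc⟩
  · intro N
    have h2 : ∑ n ∈ Finset.range N, r n ^ ((j : ℝ)⁻¹) ≤ ε / 8 := by
      have h3 : ∑ n ∈ Finset.range N, ENNReal.ofReal (r n ^ ((j : ℝ)⁻¹)) ≤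
          ENNReal.ofReal (ε / 8) := (ENNReal.sum_le_tsum _).trans hsum
      rw [← ENNReal.ofReal_sum_of_nonneg (fun n _ => Real.rpow_nonneg (hr n).le _)] at h3
      exact (ENNReal.ofReal_le_ofReal_iff (by positivity)).mp h3
    have h3 : (∑ n ∈ Finset.range N, (e n : ℝ)) ≤
        4 * ∑ n ∈ Finset.range N, r n ^ ((j : ℝ)⁻¹) := by
      rw [Finset.mul_sum]
      exact Finset.sum_le_sum fun n _ => (he2 n).le
    have h4 : (∑ n ∈ Finset.range N, (e n : ℝ)) < ε := by linarith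
    exact_mod_cast h4
  · intro n
    have h2 : (0 : ℝ) ≤ 3 * r n := (mul_pos (by norm_num) (hr n)).le
    calc 3 * r n = ((3 * r n) ^ ((j : ℝ)⁻¹)) ^ j :=
          (Real.rpow_inv_natCast_pow h2 hj.ne').symm
      _ < (e n : ℝ) ^ j :=
          pow_lt_pow_left₀ (he1 n) (Real.rpow_nonneg h2 _) hj.ne'

/-- Hausdorff dimension zero from covers, in any metric space -/
private theorem adequacy_backward {E : Type*} [MetricSpace E] [MeasurableSpace E] [BorelSpace E]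
    (Y : Set E) (h : ∀ j : ℕ, 0 < j → ∀ ε : ℚ, 0 < ε → ∃ (e : ℕ → ℚ) (S : ℕ → Set E),
      (∀ n, 0 < e n) ∧ (∀ N, ∑ n ∈ Finset.range N, e n < ε) ∧
      (∀ n, Metric.ediam (S n) ≤ ENNReal.ofReal (2 * (e n : ℝ) ^ j)) ∧ Y ⊆ ⋃ n, S n) :
    dimH Y = 0 := by
  by_contra hcon
  obtain ⟨j, hj⟩ := ENNReal.exists_inv_nat_lt hcon
  have hj0 : 0 < j := by
    rcases Nat.eq_zero_or_pos j with h0 | h0
    · rw [h0] at hj
      simp at hj
    · exact h0
  have hjR : (0 : ℝ) < j := by exact_mod_cast hj0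
  have hj' : (0 : ℝ) < (j : ℝ)⁻¹ := by positivity
  have hj1 : (j : ℝ)⁻¹ ≤ 1 := by
    have : (1 : ℝ) ≤ j := by exact_mod_cast hj0
    exact inv_le_one_of_one_le₀ this
  choose e S he hs hd hY using fun k : ℕ => h j hj0 (1 / ((k : ℚ) + 1)) (by positivity)
  have hone : ∀ k n, (e k n : ℝ) ≤ 1 / ((k : ℝ) + 1) := by
    intro k n
    have h1 : e k n ≤ ∑ m ∈ Finset.range (n + 1), e k m :=
      Finset.single_le_sum (fun m _ => (he k m).le) (Finset.self_mem_range_succ n)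
    have h2 := h1.trans (hs k (n + 1)).le
    have h3 : ((e k n : ℚ) : ℝ) ≤ ((1 / ((k : ℚ) + 1) : ℚ) : ℝ) := by exact_mod_cast h2
    have h4 : ((1 / ((k : ℚ) + 1) : ℚ) : ℝ) = 1 / ((k : ℝ) + 1) := by push_cast; rfl
    rw [← h4]
    exact h3
  have hmeas : μH[(j : ℝ)⁻¹] Y ≤ 2 := by
    refine (hausdorffMeasure_le_liminf_tsum (ι := fun _ : ℕ => ℕ) ((j : ℝ)⁻¹) Y (l := atTop)
      (fun k : ℕ => ENNReal.ofReal (2 * (1 / ((k : ℝ) + 1)))) ?_ (fun k n => S k n)
      (Eventually.of_forall fun k n => ?_) (Eventually.of_forall fun k => hY k)).trans ?_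
    · have h2 := ENNReal.tendsto_ofReal
        ((tendsto_one_div_add_atTop_nhds_zero_nat (𝕜 := ℝ)).const_mul 2)
      simpa using h2
    · refine (hd k n).trans (ENNReal.ofReal_le_ofReal ?_)
      have h2 : (0 : ℝ) < e k n := by exact_mod_cast he k n
      have h3 : (e k n : ℝ) ≤ 1 := (hone k n).trans (by
        rw [div_le_one (by positivity)]
        have : (0 : ℝ) ≤ k := Nat.cast_nonneg k
        linarith)
      have h4 : (e k n : ℝ) ^ j ≤ e k n := by
        calc (e k n : ℝ) ^ j ≤ (e k n : ℝ) ^ 1 := pow_le_pow_of_le_one h2.le h3 hj0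
          _ = e k n := pow_one _
      have h5 := hone k n
      linarith
    · have h1 : ∀ k : ℕ, ∑' n, Metric.ediam (S k n) ^ ((j : ℝ)⁻¹) ≤ 2 := by
        intro k
        have h2 : ∀ n, Metric.ediam (S k n) ^ ((j : ℝ)⁻¹) ≤ 2 * ENNReal.ofReal (e k n) := by
          intro n
          have h3 : (0 : ℝ) < e k n := by exact_mod_cast he k n
          have h4 : (2 * (e k n : ℝ) ^ j) ^ ((j : ℝ)⁻¹) ≤ 2 * e k n := by
            rw [Real.mul_rpow (by norm_num) (by positivity),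
              Real.pow_rpow_inv_natCast h3.le hj0.ne']
            have h5 : (2 : ℝ) ^ ((j : ℝ)⁻¹) ≤ 2 := by
              calc (2 : ℝ) ^ ((j : ℝ)⁻¹) ≤ (2 : ℝ) ^ (1 : ℝ) :=
                    Real.rpow_le_rpow_of_exponent_le (by norm_num) hj1
                _ = 2 := Real.rpow_one 2
            exact mul_le_mul_of_nonneg_right h5 h3.le
          calc Metric.ediam (S k n) ^ ((j : ℝ)⁻¹) ≤
                ENNReal.ofReal (2 * (e k n : ℝ) ^ j) ^ ((j : ℝ)⁻¹) :=
                ENNReal.rpow_le_rpow (hd k n) hj'.le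
            _ = ENNReal.ofReal ((2 * (e k n : ℝ) ^ j) ^ ((j : ℝ)⁻¹)) :=
                ENNReal.ofReal_rpow_of_nonneg (by positivity) hj'.le
            _ ≤ ENNReal.ofReal (2 * e k n) := ENNReal.ofReal_le_ofReal h4
            _ = 2 * ENNReal.ofReal (e k n) := by
                rw [ENNReal.ofReal_mul (by norm_num)]
                simp
        have h3 : ∑' n, ENNReal.ofReal (e k n) ≤ 1 := by
          rw [ENNReal.tsum_eq_iSup_nat]
          refine iSup_le fun N => ?_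
          rw [← ENNReal.ofReal_sum_of_nonneg (fun n _ => by
            have : (0 : ℝ) < e k n := by exact_mod_cast he k n
            exact this.le)]
          rw [← ENNReal.ofReal_one]
          refine ENNReal.ofReal_le_ofReal ?_
          have h4 : (∑ n ∈ Finset.range N, (e k n : ℝ)) ≤ 1 / ((k : ℝ) + 1) := by
            have h5 : ((∑ n ∈ Finset.range N, e k n : ℚ) : ℝ) ≤ ((1 / ((k : ℚ) + 1) : ℚ) : ℝ) :=
              Rat.cast_le.mpr (hs k N).le
            push_cast at h5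
            exact h5
          refine h4.trans ?_
          rw [div_le_one (by positivity)]
          have : (0 : ℝ) ≤ k := Nat.cast_nonneg k
          linarith
        calc ∑' n, Metric.ediam (S k n) ^ ((j : ℝ)⁻¹) ≤ ∑' n, 2 * ENNReal.ofReal (e k n) :=
              ENNReal.tsum_le_tsum h2
          _ = 2 * ∑' n, ENNReal.ofReal (e k n) := ENNReal.tsum_mul_left
          _ ≤ 2 * 1 := by gcongr
          _ = 2 := mul_one 2
      calc liminf (fun k => ∑' n, Metric.ediam (S k n) ^ ((j : ℝ)⁻¹)) atTop ≤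
            liminf (fun _ : ℕ => (2 : ℝ≥0∞)) atTop := liminf_le_liminf (Eventually.of_forall h1)
        _ = 2 := liminf_const _
  have hmeas' : μH[(((j : NNReal)⁻¹ : NNReal) : ℝ)] Y ≠ ∞ := by
    have h1 : (((j : NNReal)⁻¹ : NNReal) : ℝ) = (j : ℝ)⁻¹ := by simp
    rw [h1]
    exact ne_top_of_le_ne_top (by norm_num) hmeas
  have hdim := dimH_le_of_hausdorffMeasure_ne_top hmeas'
  have he2 : (((j : NNReal)⁻¹ : NNReal) : ℝ≥0∞) = (j : ℝ≥0∞)⁻¹ := by
    rw [ENNReal.coe_inv (by exact_mod_cast hj0.ne')]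
    simp
  rw [he2] at hdim
  exact absurd hj (not_lt.mpr hdim)

theorem dimH_zero_iff (Y : Set ℝ) : dimH Y = 0 ↔ ∀ j : ℕ, 0 < j → ∀ ε : ℚ, 0 < ε →
    ∃ e a : ℕ → ℚ, (∀ n, 0 < e n) ∧ (∀ N, ∑ n ∈ Finset.range N, e n < ε) ∧
      ∀ y ∈ Y, ∃ n, (a n : ℝ) < y ∧ y ≤ (a n : ℝ) + (e n : ℝ) ^ j := by
  constructor
  · intro hY j hj ε hε
    obtain ⟨c, r, e, hr, he, hs, h3, hc⟩ := adequacy_forward Y hY j hj ε hε
    have h1 : ∀ n, ∃ a : ℚ, c n - 2 * r n < a ∧ (a : ℝ) < c n - r n := fun n =>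
      exists_rat_btwn (by linarith [hr n])
    choose a ha1 ha2 using h1
    refine ⟨e, a, he, hs, fun y hy => ?_⟩
    obtain ⟨n, hn⟩ := hc y hy
    rw [Real.dist_eq, abs_le] at hn
    refine ⟨n, ?_, ?_⟩
    · linarith [ha2 n, hn.1]
    · linarith [ha1 n, hn.2, h3 n]
  · intro h
    refine adequacy_backward Y fun j hj ε hε => ?_
    obtain ⟨e, a, he, hs, hc⟩ := h j hj ε hε
    refine ⟨e, fun n => Ioc (a n : ℝ) ((a n : ℝ) + (e n : ℝ) ^ j), he, hs, fun n => ?_, ?_⟩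
    · refine Metric.ediam_le fun x hx y hy => ?_
      rw [edist_dist]
      refine ENNReal.ofReal_le_ofReal ?_
      have h2 : (0 : ℝ) < e n := by exact_mod_cast he n
      have h3 : (0 : ℝ) < (e n : ℝ) ^ j := by positivity
      rw [Real.dist_eq, abs_le]
      constructor <;> linarith [hx.1, hx.2, hy.1, hy.2]
    · intro y hy
      obtain ⟨n, hn⟩ := hc y hy
      exact mem_iUnion.mpr ⟨n, hn⟩

theorem dimH_prod_zero_iff (X Y : Set ℝ) : dimH (prodSet X Y) = 0 ↔ ∀ j : ℕ, 0 < j →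
    ∀ ε : ℚ, 0 < ε → ∃ e a b : ℕ → ℚ, (∀ n, 0 < e n) ∧ (∀ N, ∑ n ∈ Finset.range N, e n < ε) ∧
      ∀ x ∈ X, ∀ y ∈ Y, ∃ n, ((a n : ℝ) < x ∧ x ≤ (a n : ℝ) + (e n : ℝ) ^ j) ∧
        ((b n : ℝ) < y ∧ y ≤ (b n : ℝ) + (e n : ℝ) ^ j) := by
  constructor
  · intro hXY j hj ε hε
    obtain ⟨c, r, e, hr, he, hs, h3, hc⟩ := adequacy_forward (prodSet X Y) hXY j hj ε hε
    have h1 : ∀ n, ∃ a : ℚ, c n 0 - 2 * r n < a ∧ (a : ℝ) < c n 0 - r n := fun n =>
      exists_rat_btwn (by linarith [hr n])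
    have h2 : ∀ n, ∃ a : ℚ, c n 1 - 2 * r n < a ∧ (a : ℝ) < c n 1 - r n := fun n =>
      exists_rat_btwn (by linarith [hr n])
    choose a ha1 ha2 using h1
    choose b hb1 hb2 using h2
    refine ⟨e, a, b, he, hs, fun x hx y hy => ?_⟩
    obtain ⟨n, hn⟩ := hc (!₂[x, y] : EuclideanSpace ℝ (Fin 2)) (by
      refine ⟨?_, ?_⟩
      · simpa using hx
      · simpa using hy)
    have hcoord : ∀ i : Fin 2, |(!₂[x, y] : EuclideanSpace ℝ (Fin 2)) i - c n i| ≤ r n := by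
      intro i
      refine le_trans ?_ hn
      rw [dist_eq_norm]
      have h4 := PiLp.norm_apply_le (p := 2) ((!₂[x, y] : EuclideanSpace ℝ (Fin 2)) - c n) i
      simpa using h4
    have h0 := hcoord 0
    have h1' := hcoord 1
    have e0 : (!₂[x, y] : EuclideanSpace ℝ (Fin 2)) 0 = x := by simp
    have e1 : (!₂[x, y] : EuclideanSpace ℝ (Fin 2)) 1 = y := by simp
    rw [e0, abs_le] at h0
    rw [e1, abs_le] at h1'
    refine ⟨n, ⟨?_, ?_⟩, ?_, ?_⟩
    · linarith [ha2 n, h0.1]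
    · linarith [ha1 n, h0.2, h3 n]
    · linarith [hb2 n, h1'.1]
    · linarith [hb1 n, h1'.2, h3 n]
  · intro h
    refine adequacy_backward (prodSet X Y) fun j hj ε hε => ?_
    obtain ⟨e, a, b, he, hs, hc⟩ := h j hj ε hε
    refine ⟨e, fun n => {z | z 0 ∈ Ioc (a n : ℝ) ((a n : ℝ) + (e n : ℝ) ^ j) ∧
      z 1 ∈ Ioc (b n : ℝ) ((b n : ℝ) + (e n : ℝ) ^ j)}, he, hs, fun n => ?_, ?_⟩
    · refine Metric.ediam_le fun x hx y hy => ?_
      rw [edist_dist]
      refine ENNReal.ofReal_le_ofReal ?_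
      have h2 : (0 : ℝ) < e n := by exact_mod_cast he n
      have h3 : (0 : ℝ) < (e n : ℝ) ^ j := by positivity
      rw [EuclideanSpace.dist_eq, Fin.sum_univ_two]
      obtain ⟨hx0, hx1⟩ := hx
      obtain ⟨hy0, hy1⟩ := hy
      have e0 : dist (x 0) (y 0) ≤ (e n : ℝ) ^ j := by
        rw [Real.dist_eq, abs_le]
        constructor <;> linarith [hx0.1, hx0.2, hy0.1, hy0.2]
      have e1 : dist (x 1) (y 1) ≤ (e n : ℝ) ^ j := by
        rw [Real.dist_eq, abs_le]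
        constructor <;> linarith [hx1.1, hx1.2, hy1.1, hy1.2]
      refine Real.sqrt_le_iff.2 ⟨by positivity, ?_⟩
      have f0 : dist (x 0) (y 0) ^ 2 ≤ ((e n : ℝ) ^ j) ^ 2 := pow_le_pow_left₀ dist_nonneg e0 2
      have f1 : dist (x 1) (y 1) ^ 2 ≤ ((e n : ℝ) ^ j) ^ 2 := pow_le_pow_left₀ dist_nonneg e1 2
      nlinarith
    · intro z hz
      obtain ⟨n, hn⟩ := hc (z 0) hz.1 (z 1) hz.2
      exact mem_iUnion.mpr ⟨n, hn⟩

end Pool.Agent.Lib.MP_4d8715_gt.KR
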